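import Pool.Agent.Run7.h635.GEN.Fin2

/-!
# Ordinary primes of the Hecke eigenforms of weight at least 3

Every normalized Hecke eigenform of weight at least 3, of any level and character, is ordinary at
some place above `p` for a set of primes `p` of positive lower density.
-/

set_option autoImplicit false

open MatrixGroups UpperHalfPlane CongruenceSubgroup ModularForm

namespace Pool.Agent.Results.MP_0dad22_ag.EigenformsAllLevels

/-- The Hecke operator `T_p` of weight `k` and character `χ` modulo `M` on functions on the upper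
half-plane: `z ↦ χ(p) p^(k-1) f(pz) + p^(-1) ∑_{b mod p} f((z+b)/p)`. It is `U_p` if `p ∣ M`, since
then `χ(p) = 0`. -/
noncomputable def heckeT {M : ℕ} (k : ℕ) (χ : DirichletCharacter ℂ M) (p : ℕ) (f : ℍ → ℂ) (z : ℍ) :
    ℂ :=
  χ (p : ZMod M) * (p : ℂ) ^ (k - 1) * f (ofComplex ((p : ℂ) * z)) +
    (∑ b ∈ Finset.range p, f (ofComplex (((z : ℂ) + b) / p))) / p

/-- `f = ∑ a_n e(nz)`, a cusp form of weight `k` on `Γ_1(M)`, is a normalized Hecke eigenform with
character `χ`: `a_1 = 1`, `f ∣[k] γ = χ(d) f` for `γ` in `Γ_0(M)` with lower right entry `d`, and `f`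
is an eigenfunction of every `T_p` (of every `U_p` for `p ∣ M`). -/
structure IsEigenform {M : ℕ} (k : ℕ) (χ : DirichletCharacter ℂ M) (f : CuspForm (Gamma1 M) k) :
    Prop where
  coeff_one : (qExpansion 1 f).coeff 1 = 1
  nebentypus : ∀ γ ∈ Gamma0 M, (f : ℍ → ℂ) ∣[(k : ℤ)] γ = χ ((γ 1 1 : ℤ) : ZMod M) • (f : ℍ → ℂ)
  hecke : ∀ p : ℕ, p.Prime → ∃ c : ℂ, ∀ z : ℍ, heckeT k χ p f z = c * f z

/-- `f = ∑ a_n e(nz)` is ordinary at some place above `p`: the Hecke polynomial
`T² - a_p T + χ(p) p^(k-1)` (the characteristic polynomial of the Frobenius at `p`) is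
`(T - α) (T - β)` with algebraic integers `α`, `β`, and for some maximal ideal `m` above `p` of the
ring of all algebraic integers `α ∉ m` (so that `α` and `β` have the valuations `0` and `k - 1` at
`m`, where `p` has valuation `1`, if `p` does not divide `M`). -/
def OrdinaryAbove {M k : ℕ} (χ : DirichletCharacter ℂ M) (f : CuspForm (Gamma1 M) k) (p : ℕ) :
    Prop :=
  ∃ (α β : integralClosure ℤ ℂ) (m : Ideal (integralClosure ℤ ℂ)),
    (α : ℂ) + β = (qExpansion 1 f).coeff p ∧ (α : ℂ) * β = χ (p : ZMod M) * (p : ℂ) ^ (k - 1) ∧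
    m.IsMaximal ∧ (p : integralClosure ℤ ℂ) ∈ m ∧ α ∉ m

lemma ordinary_of_unitAbove {M k : ℕ} [NeZero M] (χ : DirichletCharacter ℂ M)
    (f : CuspForm (Gamma1 M) k) {p : ℕ} (hp : p.Prime)
    (hi : IsIntegral ℤ ((qExpansion 1 f).coeff p))
    (h : Run7.h635.OD.UnitAbove ((qExpansion 1 f).coeff p) p) : OrdinaryAbove χ f p := by
  have hp0 : (p : ℂ) ≠ 0 := by exact_mod_cast hp.ne_zero
  set a : integralClosure ℤ ℂ := ⟨(qExpansion 1 f).coeff p, hi⟩ with ha
  -- a maximal ideal above `p` which does not contain `a`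
  obtain ⟨m, hm, hpm, ham⟩ : ∃ m : Ideal (integralClosure ℤ ℂ), m.IsMaximal ∧
      (p : integralClosure ℤ ℂ) ∈ m ∧ a ∉ m := by
    have h1 : a ∉ (Ideal.span {(p : integralClosure ℤ ℂ)}).radical := by
      rintro ⟨n, hn⟩
      rw [Ideal.mem_span_singleton] at hn
      obtain ⟨⟨c, hc⟩, hcn⟩ := hn
      apply h
      refine ⟨n, ?_⟩
      have h2 : ((qExpansion 1 f).coeff p) ^ n = (p : ℂ) * c := congrArg Subtype.val hcn
      rw [h2, mul_div_cancel_left₀ _ hp0]
      exact hc
    rw [Ideal.radical_eq_sInf, Submodule.mem_sInf] at h1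
    push Not at h1
    obtain ⟨m, ⟨hm1, hm2⟩, hm3⟩ := h1
    have hpm : (p : integralClosure ℤ ℂ) ∈ m := hm1 (Ideal.mem_span_singleton_self _)
    refine ⟨m, ?_, hpm, hm3⟩
    have hcm : (Ideal.comap (algebraMap ℤ (integralClosure ℤ ℂ)) m).IsMaximal := by
      have hprime : (Ideal.comap (algebraMap ℤ (integralClosure ℤ ℂ)) m).IsPrime := inferInstance
      refine hprime.isMaximal ?_
      intro hbot
      have h3 : (p : ℤ) ∈ Ideal.comap (algebraMap ℤ (integralClosure ℤ ℂ)) m := by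
        rw [Ideal.mem_comap]
        simpa using hpm
      rw [hbot, Ideal.mem_bot] at h3
      exact hp.ne_zero (by exact_mod_cast h3)
    exact Ideal.isMaximal_of_isIntegral_of_isMaximal_comap m hcm
  -- the constant term is an algebraic integer
  set c0 : ℂ := χ (p : ZMod M) * (p : ℂ) ^ (k - 1) with hc0
  have hci : IsIntegral ℤ c0 := by
    have h4 : IsIntegral ℤ ((p : ℤ) : ℂ) := isIntegral_algebraMap
    have h5 : IsIntegral ℤ (χ (p : ZMod M)) := by
      by_cases hu : IsUnit (p : ZMod M)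
      · obtain ⟨v, hv⟩ := hu
        refine IsIntegral.of_pow (n := Nat.totient M)
          (Nat.totient_pos.2 (Nat.pos_of_ne_zero (NeZero.ne M))) ?_
        rw [← hv, ← map_pow, ← Units.val_pow_eq_pow_val, ZMod.pow_totient, Units.val_one, map_one]
        exact isIntegral_one
      · rw [MulChar.map_nonunit χ hu]
        exact isIntegral_zero
    exact h5.mul (by simpa using h4.pow (k - 1))
  -- the roots
  obtain ⟨x, hx⟩ := IsAlgClosed.exists_pow_nat_eq
    (((qExpansion 1 f).coeff p) ^ 2 - 4 * c0) (n := 2) (by norm_num)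
  have hroot : ∀ y : ℂ, y ^ 2 - (qExpansion 1 f).coeff p * y + c0 = 0 → IsIntegral ℤ y := by
    intro y hy
    have h5 : IsIntegral (integralClosure ℤ ℂ) y := by
      refine ⟨Polynomial.X ^ 2 - Polynomial.C a * Polynomial.X +
        Polynomial.C (⟨c0, hci⟩ : integralClosure ℤ ℂ), ?_, ?_⟩
      · monicity!
      · simp only [Polynomial.eval₂_add, Polynomial.eval₂_sub, Polynomial.eval₂_mul,
          Polynomial.eval₂_pow, Polynomial.eval₂_X, Polynomial.eval₂_C]
        exact hy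
    exact isIntegral_trans y h5
  set y₁ : ℂ := ((qExpansion 1 f).coeff p + x) / 2 with hy₁
  set y₂ : ℂ := ((qExpansion 1 f).coeff p - x) / 2 with hy₂
  have hsum : y₁ + y₂ = (qExpansion 1 f).coeff p := by rw [hy₁, hy₂]; ring
  have hprod : y₁ * y₂ = c0 := by
    rw [hy₁, hy₂]
    linear_combination (-1 / 4 : ℂ) * hx
  have hi₁ : IsIntegral ℤ y₁ := hroot y₁ (by rw [← hsum, ← hprod]; ring)
  have hi₂ : IsIntegral ℤ y₂ := hroot y₂ (by rw [← hsum, ← hprod]; ring)
  by_cases h6 : (⟨y₁, hi₁⟩ : integralClosure ℤ ℂ) ∈ m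
  · refine ⟨⟨y₂, hi₂⟩, ⟨y₁, hi₁⟩, m, ?_, ?_, hm, hpm, fun h7 => ham ?_⟩
    · show y₂ + y₁ = _
      rw [add_comm]; exact hsum
    · show y₂ * y₁ = _
      rw [mul_comm]; exact hprod
    · have e : a = ⟨y₁, hi₁⟩ + ⟨y₂, hi₂⟩ := Subtype.ext hsum.symm
      rw [e]
      exact m.add_mem h6 h7
  · exact ⟨⟨y₁, hi₁⟩, ⟨y₂, hi₂⟩, m, hsum, hprod, hm, hpm, h6⟩

/-- **Every normalized Hecke eigenform of weight `k ≥ 3`, of any level `M` and character, is
ordinary at some place above `p`, for a set of primes `p ∤ M` of positive lower density.** -/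
theorem result (M k : ℕ) [NeZero M] (hk : 3 ≤ k) (χ : DirichletCharacter ℂ M)
    (f : CuspForm (Gamma1 M) k) (hf : IsEigenform k χ f) :
    0 < Filter.liminf (fun x : ℕ =>
      (Nat.card {p : ℕ // p ≤ x ∧ p.Prime ∧ ¬ p ∣ M ∧ OrdinaryAbove χ f p} : ℝ) /
        Nat.card {p : ℕ // p ≤ x ∧ p.Prime}) Filter.atTop := by
  have hf' : H635.PER.IsEigenform M k χ f := ⟨hf.coeff_one, hf.nebentypus, hf.hecke⟩
  have hint := (H635.GEN.final M k hk χ f hf').2
  exact H594.CY.liminf_pos (fun p => ¬ p ∣ M ∧ OrdinaryAbove χ f p)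
    (H635.GEN.PosLog.mono (fun p hp h => ⟨h.1, ordinary_of_unitAbove χ f hp (hint p) h.2⟩)
      (H635.GEN.final' M k hk χ f hf'))

end Pool.Agent.Results.MP_0dad22_ag.EigenformsAllLevels
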