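import Pool.Agent.Run7.h328.ORD.Ell
import Pool.Agent.Run7.h328.ORD.PropK

/-!
# Ordinary places of `H¹(P¹, j_* R¹π_* Q_ℓ)` for almost all families of elliptic curves over the projective line

Let `π : 𝓔 → U ⊆ P¹` be the family of elliptic curves `y² = x³ + A(t) x + B(t)` over a number field `K`, `deg A ≤ 4 n`, `deg B ≤ 6 n`, and
`j : U → P¹`.  The representation `H = H¹(P¹, j_* R¹π_* Q_ℓ)` is a direct factor of `H²` of the elliptic surface; for the general `A`, `B` its
rank is `12 n - 4` with the Hodge numbers `n - 1`, `10 n - 2`, `n - 1` (`n = 1`: rational surfaces, `n = 2`: K3 surfaces, `n ≥ 3`: properly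
elliptic surfaces); the complement of `H` in `H²` is spanned by classes of curves.  The Frobenius map of `H²(𝓞)` is given by the Hasse-Witt matrix

`(coefficient of x^(p - 1) t^(p r - r') in (x³ + A x + B)^((p - 1) / 2))`, `1 ≤ r, r' ≤ n - 1`.

If it is invertible at a place `v` of good reduction, the slopes `0` and `2` occur `n - 1` times each in `H`, and then the Newton polygon of
`H` is equal to the Hodge(-Tate) polygon.

1. For every prime number `p ≥ 5` the matrix is invertible for at least the proportion `(5 / 6) ^ (n - 1) (1 - 1 / p) ^ (n - 1)` of the pairs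
   `(A, B)` over `F_p`.

2. For `H` large in terms of `ε`, `n`, `d`, all number fields `K` of degree `d`, all pairs `(α, β)` over `𝓞_K` and every family `𝒮` of at
   most `H ^ (ε / 500)` sets of places of `K`: for all pairs `(a, b)` with integral coefficients in `[-H, H]` outside a proportion
   `H ^ (-ε / 500)`,

   `#{v ∈ S : q_v ≤ N, v ∤ 6, matrix invertible mod v} ≥ (5 / 6) ^ (n - 1) #{v ∈ S : q_v ≤ N} - C (N ^ (1 / 2 + ε) + (log H) ^ (4 / ε))`

   for all `S ∈ 𝒮` and all `N ≤ H ^ (ε / 200)` at the same time, for `A = α + a`, `B = β + b`.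

Proof of 1.  Give the coefficient of `t^m` in `B` the weight `6 W - 2 m²` and the coefficient of `t^m` in `A` the weight `4 W - 1 - 3 m²`, with
`W = 36 n² + 1`.  The supporting functional of `r` is `c_r (3 - i) - 24 r j` at `x^i t^j`, `c_r = 2 W + 24 r²`; it exceeds the weights by
`0`, `1 + 3 (m - 4 r)²` and `2 (m - 6 r)²` at `x³`, `x t^m` and `t^m`.  The number of factors `A` in a term with `x^(p - 1)` is congruent to
`p - 1` modulo `3`.  So the diagonal entries have the leading monomials `B_{6 r} ^ ((p - 1) / 6)` for `p ≡ 1 mod 3` and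
`A_{4 r} B_{6 r} ^ ((p - 5) / 6)` for `p ≡ 2 mod 3`, with multinomial coefficients of order `(p - 1) / 2`, and the identity is the only
permutation that contributes to the leading monomial of the determinant.  The footprint bound gives 1.  Proof of 2: the residues of the
coefficients modulo the square-free numbers up to a power of `H` are uniformly distributed; the high moments of the sum over the
primes `v` of degree one in dyadic intervals are small.
-/

set_option autoImplicit false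

open Filter

namespace Pool.Agent.Results.MP_0dad22_ag.EllipticSurfaces

open NumberField IsDedekindDomain Finset

/-- The coefficients of a pair `(A, B)` with `deg A ≤ 4 n`, `deg B ≤ 6 n`. -/
abbrev Pairs (n : ℕ) (R : Type) := Fin (4 * n + 1) ⊕ Fin (6 * n + 1) → R

/-- `x³ + A(t) x + B(t)`, with `x = X 0`, `t = X 1`. -/
noncomputable def poly {k : Type} [Field k] {n : ℕ} (c : Pairs n k) : MvPolynomial (Fin 2) k :=
  MvPolynomial.X 0 ^ 3 + (∑ j : Fin (4 * n + 1), MvPolynomial.C (c (Sum.inl j)) * MvPolynomial.X 1 ^ (j : ℕ)) * MvPolynomial.X 0 +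
    ∑ j : Fin (6 * n + 1), MvPolynomial.C (c (Sum.inr j)) * MvPolynomial.X 1 ^ (j : ℕ)

open Classical in
/-- The Hasse-Witt matrix of the elliptic surface in characteristic `p`: for `1 ≤ r, r' ≤ n - 1` the coefficient of
`x ^ (p - 1) t ^ (p r - r')` in `(x³ + A x + B) ^ ((p - 1) / 2)` (zero if `p r < r'`). -/
noncomputable def hasseWitt {k : Type} [Field k] (p : ℕ) {n : ℕ} (c : Pairs n k) : Matrix (Ico 1 n) (Ico 1 n) k :=
  Matrix.of fun r r' => if r'.1 ≤ p * r.1 then
    MvPolynomial.coeff (Finsupp.single 0 (p - 1) + Finsupp.single 1 (p * r.1 - r'.1)) (poly c ^ ((p - 1) / 2)) else 0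

section
variable {K : Type} [Field K] [NumberField K]

/-- `q_v`, the norm of `v`. -/
noncomputable def q (v : HeightOneSpectrum (𝓞 K)) : ℕ := Ideal.absNorm v.asIdeal

/-- The coefficients modulo `v`. -/
noncomputable def bar (v : HeightOneSpectrum (𝓞 K)) {n : ℕ} (c : Pairs n (𝓞 K)) : Pairs n (𝓞 K ⧸ v.asIdeal) :=
  fun i => Ideal.Quotient.mk v.asIdeal (c i)

/-- `v` does not divide `6` and the Hasse-Witt matrix is invertible modulo `v`. -/
def Ordinary {n : ℕ} (v : HeightOneSpectrum (𝓞 K)) (c : Pairs n (𝓞 K)) : Prop :=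
  (6 : 𝓞 K) ∉ v.asIdeal ∧ (hasseWitt (ringChar (𝓞 K ⧸ v.asIdeal)) (bar v c)).det ≠ 0

end

/-- The pairs with integral coefficients in `[-H, H]`. -/
noncomputable def cube (n H : ℕ) : Finset (Pairs n ℤ) := Fintype.piFinset fun _ => Icc (-(H : ℤ)) H

open Run7.h328.ORD.Ell in
theorem poly_eq {k : Type} [Field k] {n : ℕ} (c : Pairs n k) : Run7.h328.ORD.Fn.PP (ex n) (co n c) = poly c := by
  unfold Run7.h328.ORD.Fn.PP poly
  rw [Fintype.sum_option, Fintype.sum_sum_type]
  have h0 : (MvPolynomial.monomial (ex n none) (co n c none) : MvPolynomial (Fin 2) k) = MvPolynomial.X 0 ^ 3 := by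
    show (MvPolynomial.monomial (E2 3 0) (1 : k)) = _
    unfold E2
    rw [MvPolynomial.X_pow_eq_monomial, Finsupp.single_zero, add_zero]
  have hm : ∀ (i j : ℕ) (x : k), (MvPolynomial.monomial (E2 i j) x : MvPolynomial (Fin 2) k) =
      MvPolynomial.C x * MvPolynomial.X 1 ^ j * MvPolynomial.X 0 ^ i := by
    intro i j x
    unfold E2
    rw [MvPolynomial.X_pow_eq_monomial, MvPolynomial.X_pow_eq_monomial, MvPolynomial.C_mul_monomial, MvPolynomial.monomial_mul,
      mul_one, mul_one, add_comm]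
  have h1 : ∀ j, (MvPolynomial.monomial (ex n (some (Sum.inl j))) (co n c (some (Sum.inl j))) : MvPolynomial (Fin 2) k) =
      (MvPolynomial.C (c (Sum.inl j)) * MvPolynomial.X 1 ^ (j : ℕ)) * MvPolynomial.X 0 := by
    intro j
    show (MvPolynomial.monomial (E2 1 j) (c (Sum.inl j))) = _
    rw [hm, pow_one]
  have h3 : ∀ j, (MvPolynomial.monomial (ex n (some (Sum.inr j))) (co n c (some (Sum.inr j))) : MvPolynomial (Fin 2) k) =
      MvPolynomial.C (c (Sum.inr j)) * MvPolynomial.X 1 ^ (j : ℕ) := by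
    intro j
    show (MvPolynomial.monomial (E2 0 j) (c (Sum.inr j))) = _
    rw [hm, pow_zero, mul_one]
  rw [h0, Finset.sum_congr rfl fun j _ => h1 j, Finset.sum_congr rfl fun j _ => h3 j, ← Finset.sum_mul, add_assoc]

open Run7.h328.ORD.Ell in
theorem hw_eq {k : Type} [Field k] {n : ℕ} (p : ℕ) (hp : 1 ≤ p) (c : Pairs n k) :
    Run7.h328.ORD.Fn.HWm p ((p - 1) / 2) (ex n) (uu n) (co n c) = hasseWitt p c := by
  classical
  ext u u'
  unfold Run7.h328.ORD.Fn.HWm hasseWitt
  rw [Matrix.of_apply, Matrix.of_apply, poly_eq, uu_sub]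
  have h : uu n u' ≤ p • uu n u ↔ u'.1 ≤ p * u.1 := by
    constructor
    · intro h
      have h1 := h 1
      rw [Finsupp.smul_apply, smul_eq_mul] at h1
      unfold uu at h1
      rwa [E2_one, E2_one] at h1
    · intro h1 s
      rw [Finsupp.smul_apply, smul_eq_mul]
      unfold uu
      fin_cases s
      · show E2 _ _ 0 ≤ p * E2 _ _ 0
        rw [E2_zero, E2_zero]
        omega
      · show E2 _ _ 1 ≤ p * E2 _ _ 1
        rw [E2_one, E2_one]
        exact h1
  by_cases hc : u'.1 ≤ p * u.1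
  · rw [if_pos hc, if_pos (h.2 hc), mul_one]
    rfl
  · rw [if_neg hc, if_neg (fun h' => hc (h.1 h'))]

/-- the local property -/
def Lp (n : ℕ) (k : Type) [Field k] (c : Pairs n k) : Prop := (6 : k) ≠ 0 ∧ (hasseWitt (ringChar k) c).det ≠ 0

theorem poly_map {n : ℕ} {k k' : Type} [Field k] [Field k'] (e : k →+* k') (c : Pairs n k) :
    MvPolynomial.map e (poly c) = poly fun i => e (c i) := by
  unfold poly
  simp only [map_add, map_mul, map_pow, map_sum, MvPolynomial.map_X, MvPolynomial.map_C]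

theorem hw_map {n : ℕ} {k k' : Type} [Field k] [Field k'] (e : k →+* k') (p : ℕ) (c : Pairs n k) :
    hasseWitt p (fun i => e (c i)) = (hasseWitt p c).map e := by
  classical
  ext u u'
  unfold hasseWitt
  rw [Matrix.map_apply, Matrix.of_apply, Matrix.of_apply]
  split_ifs with h
  · rw [← MvPolynomial.coeff_map, map_pow, poly_map]
  · rw [map_zero]

theorem Lp_iso (n : ℕ) (k k' : Type) [Field k] [Field k'] (e : k ≃+* k') (c : Pairs n k) :
    Lp n k' (fun i => e (c i)) ↔ Lp n k c := by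
  have hchar : ringChar k' = ringChar k := by
    have : CharP k' (ringChar k) := by
      constructor
      intro x
      rw [← ringChar.spec k x, ← map_natCast e, map_eq_zero_iff e e.injective]
    exact ringChar.eq k' (ringChar k)
  unfold Lp
  have h1 : ((6 : k') ≠ 0) ↔ ((6 : k) ≠ 0) := by
    rw [not_iff_not, ← map_ofNat e 6, map_eq_zero_iff e e.injective]
  rw [h1, hchar]
  have h3 : (fun i => e (c i)) = fun i => (e : k →+* k') (c i) := rfl
  rw [h3, hw_map]
  have h4 := RingHom.map_det (e : k →+* k') (hasseWitt (ringChar k) c)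
  rw [RingHom.mapMatrix_apply] at h4
  rw [← h4]
  have h5 : ((e : k →+* k') (hasseWitt (ringChar k) c).det ≠ 0) ↔ ((hasseWitt (ringChar k) c).det ≠ 0) := map_ne_zero_iff _ e.injective
  rw [h5]

theorem local_count (n p : ℕ) [hp : Fact p.Prime] (h5 : 5 ≤ p) :
    (5 / 6 : ℝ) ^ (n - 1) * (1 - 1 / p : ℝ) ^ (n - 1) * (p : ℝ) ^ (10 * n + 2) ≤
      Nat.card {c : Pairs n (ZMod p) // (hasseWitt p c).det ≠ 0} := by
  have h := Run7.h328.ORD.Ell.count_ell n h5
  refine h.trans (le_of_eq ?_)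
  congr 1
  exact Nat.card_congr (Equiv.subtypeEquivRight fun b => by rw [hw_eq p (by omega)])

theorem six_ne {p : ℕ} [hp : Fact p.Prime] (h5 : 5 ≤ p) : (6 : ZMod p) ≠ 0 := by
  intro h
  have h9 : ((6 : ℕ) : ZMod p) = 0 := by exact_mod_cast h
  rw [ZMod.natCast_eq_zero_iff] at h9
  have h10 : p ∣ 2 * 3 := h9
  rcases (Nat.Prime.dvd_mul hp.out).1 h10 with h | h
  · have := Nat.le_of_dvd (by norm_num) h
    omega
  · have := Nat.le_of_dvd (by norm_num) h
    omega

open Classical in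
theorem dg_low (n p : ℕ) (hp : p.Prime) : (5 / 6 : ℝ) ^ (n - 1) - (n + 3) / p ≤ Run7.h328.ORD.dg (fun k _ c => Lp n k c) p := by
  have := Fact.mk hp
  have hp0 : (0 : ℝ) < p := by exact_mod_cast hp.pos
  have h56 : (5 / 6 : ℝ) ^ (n - 1) ≤ 1 := pow_le_one₀ (by norm_num) (by norm_num)
  by_cases h5 : 5 ≤ p
  · have h1 := local_count n p h5
    have hr : ringChar (ZMod p) = p := ringChar.eq (ZMod p) p |>.symm ▸ rfl
    have h2 : (5 / 6 : ℝ) ^ (n - 1) * (1 - 1 / p : ℝ) ^ (n - 1) ≤ Run7.h328.ORD.dg (fun k _ c => Lp n k c) p := by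
      unfold Run7.h328.ORD.dg
      rw [dif_pos hp]
      unfold Pool.Agent.Y722.HS.EM
      rw [Finset.sum_boole, le_div_iff₀ (by positivity)]
      have hcard : Fintype.card (Fin (4 * n + 1) ⊕ Fin (6 * n + 1)) = 10 * n + 2 := by
        rw [Fintype.card_sum, Fintype.card_fin, Fintype.card_fin]
        ring
      rw [hcard]
      refine h1.trans (le_of_eq ?_)
      rw [Nat.card_eq_fintype_card, Fintype.card_subtype]
      congr 2
      ext c
      simp only [Finset.mem_filter, Finset.mem_univ, true_and]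
      unfold Lp
      rw [hr]
      exact ⟨fun h => ⟨six_ne h5, h⟩, fun h => h.2⟩
    have h3 : (1 : ℝ) - (n - 1 : ℕ) * (1 / p) ≤ (1 - 1 / p) ^ (n - 1) := by
      have hp1 : (1 : ℝ) / p ≤ 1 := by
        rw [div_le_one hp0]
        exact_mod_cast hp.one_lt.le
      have := one_add_mul_le_pow (a := -(1 / (p : ℝ))) (by linarith) (n - 1)
      have e : (1 : ℝ) + -(1 / (p : ℝ)) = 1 - 1 / p := by ring
      rw [e] at this
      linarith
    have h4 : ((n - 1 : ℕ) : ℝ) ≤ n := by exact_mod_cast Nat.sub_le _ _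
    have h6 : (5 / 6 : ℝ) ^ (n - 1) * ((n - 1 : ℕ) * (1 / (p : ℝ))) ≤ 1 * (n * (1 / p)) := by gcongr
    have h7 : (5 / 6 : ℝ) ^ (n - 1) * (1 - (n - 1 : ℕ) * (1 / (p : ℝ))) ≤ (5 / 6 : ℝ) ^ (n - 1) * (1 - 1 / p) ^ (n - 1) := by gcongr
    have h8 : ((n : ℝ) + 3) / p = n * (1 / p) + 3 / p := by ring
    have h9 : (0 : ℝ) < 3 / p := by positivity
    rw [h8]
    linarith
  · have h1 := (Run7.h328.ORD.dg_mem (fun k _ c => Lp n k c) p).1
    have h2 : (1 : ℝ) ≤ (n + 3) / p := by
      rw [le_div_iff₀ hp0, one_mul]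
      have h3 : p ≤ 3 := by
        have h4 : p ≠ 4 := by
          rintro rfl
          exact absurd hp (by norm_num)
        omega
      have h5 : p ≤ n + 3 := by omega
      exact_mod_cast h5
    linarith

/-- **The theorem.**  See the head of the file. -/
theorem result (n d : ℕ) :
    (∀ (p : ℕ) [Fact p.Prime], 5 ≤ p →
      (5 / 6 : ℝ) ^ (n - 1) * (1 - 1 / p : ℝ) ^ (n - 1) * (p : ℝ) ^ (10 * n + 2) ≤
        Nat.card {c : Pairs n (ZMod p) // (hasseWitt p c).det ≠ 0}) ∧
    ∃ C : ℝ, 0 < C ∧ ∀ ε : ℝ, 0 < ε → ε ≤ 1 → ∃ H₀ : ℕ, ∀ H : ℕ, H₀ ≤ H →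
      ∀ (K : Type) [Field K] [NumberField K], Module.finrank ℚ K = d → ∀ α : Pairs n (𝓞 K),
      ∀ 𝒮 : Finset (Set (HeightOneSpectrum (𝓞 K))), (𝒮.card : ℝ) ≤ (H : ℝ) ^ (ε / 500) →
      ∃ X ⊆ cube n H, (X.card : ℝ) ≤ (H : ℝ) ^ (-(ε / 500)) * (2 * H + 1) ^ (10 * n + 2) ∧
        ∀ c ∈ cube n H \ X, ∀ S ∈ 𝒮, ∀ N : ℕ, (N : ℝ) ≤ (H : ℝ) ^ (ε / 200) →
          (5 / 6 : ℝ) ^ (n - 1) * Nat.card {v : HeightOneSpectrum (𝓞 K) // v ∈ S ∧ q v ≤ N} -
              C * ((N : ℝ) ^ (1 / 2 + ε) + Real.log H ^ (4 / ε)) ≤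
            Nat.card {v : HeightOneSpectrum (𝓞 K) // v ∈ S ∧ q v ≤ N ∧ Ordinary v (fun i => α i + (c i : 𝓞 K))} := by
  classical
  refine ⟨fun p _ h5 => local_count n p h5, ?_⟩
  obtain ⟨C, hC, h⟩ := Run7.h328.ORD.propK (fun k _ c => Lp n k c) d ((5 / 6 : ℝ) ^ (n - 1)) (n + 3)
    (pow_le_one₀ (by norm_num) (by norm_num)) (by positivity) (fun k k' _ _ e c => Lp_iso n k k' e c) (fun p hp => dg_low n p hp)
  refine ⟨C, hC, fun ε hε hε1 => ?_⟩
  obtain ⟨H₀, h⟩ := Filter.eventually_atTop.1 (h ε hε hε1)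
  refine ⟨H₀, fun H hH K _ _ hK α 𝒮 h𝒮 => ?_⟩
  obtain ⟨Ex, hE1, hE2, hE3⟩ := h H hH K hK α 𝒮 h𝒮
  have hbox : Pool.Agent.Y722.HS.box (Fin (4 * n + 1) ⊕ Fin (6 * n + 1)) H = cube n H := rfl
  have hcard : ((cube n H).card : ℝ) = (2 * H + 1) ^ (10 * n + 2) := by
    unfold cube
    rw [Fintype.card_piFinset]
    simp only [Int.card_Icc, Finset.prod_const, Finset.card_univ, Fintype.card_sum, Fintype.card_fin]
    have : ((H : ℤ) + 1 - -(H : ℤ)).toNat = 2 * H + 1 := by omega
    rw [this]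
    have e : 4 * n + 1 + (6 * n + 1) = 10 * n + 2 := by ring
    rw [e]
    push_cast
    ring
  rw [hbox] at hE1 hE2 hE3
  refine ⟨Ex, hE1, ?_, ?_⟩
  · rw [← hcard]
    exact hE2
  · intro c hc S hS N hN
    have h1 := hE3 c hc S hS N hN
    refine h1.trans (le_of_eq ?_)
    congr 1
    refine Nat.card_congr (Equiv.subtypeEquivRight fun v => ?_)
    have e1 : Pool.Agent.H921R2.TatePole.nm v = q v := rfl
    have e2 : Lp n (𝓞 K ⧸ v.asIdeal) (Run7.h328.ORD.rvg v fun i => α i + (c i : 𝓞 K)) ↔ Ordinary v (fun i => α i + (c i : 𝓞 K)) := by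
      unfold Lp Ordinary
      have h3 : ((6 : 𝓞 K ⧸ v.asIdeal) ≠ 0) ↔ (6 : 𝓞 K) ∉ v.asIdeal := by
        rw [← Ideal.Quotient.eq_zero_iff_mem, map_ofNat]
      rw [h3]
      rfl
    rw [e1, e2, and_assoc]

end Pool.Agent.Results.MP_0dad22_ag.EllipticSurfaces
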