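import Pool.Agent.Run7.h328.ORD.Sup2
import Pool.Agent.Run7.h328.ORD.PropP

/-!
# Ordinary reduction of the primitive part of `H¹(yⁿ = f(x))` at a positive proportion of the places `≡ 1 mod n`

Let `C_f` be the curve `yⁿ = f(x)`, `deg f = m`, over a number field `K`, and `e` the idempotent of `ℚ[μ_n]` of the characters of exact order
`n`; `e` is an algebraic cycle over `K`, and `R = e h¹(C_f)` is the primitive part of `h¹(C_f)` (all of it if `n` is prime).  `C_f → P¹` is
finite étale over an open `U ⊆ P¹`, so `R` is a summand of `H¹(P¹, j_{!*} π_* ℚ_ℓ)`.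

For `p ≡ 1 mod n` the Hasse-Witt matrix of `C_f` is the direct sum over the characters of the blocks

`HW_i(f) = (coefficient of x^(p u - u') in f^(i (p - 1) / n))`, `u, u' ∈ U_i = {u ≥ 1 : n u < i m}`, `0 < i < n`;

if the reduction modulo `v` (`v ∤ n`) is smooth with `deg f = m`, `R` is ordinary at `v` (the Newton polygons of the Frobenius are equal to
the Hodge polygon) if and only if the blocks with `(i, n) = 1` are invertible; by duality the blocks `i` and `n - i` are invertible at
the same time, so `0 < i < n / 2` suffices.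

Let `I ⊆ {1, …, n - 1}` be a set with `s = ∑_{i ∈ I} i < n`.

1. For every prime number `p ≡ 1 mod n` all the blocks `HW_i(f)`, `i ∈ I`, are invertible at the same time for at least
   `(1 - s / n) ^ (m + 1) p ^ (m + 1)` of the `p ^ (m + 1)` polynomials `f` of degree at most `m` over `F_p`.

2. Put `δ = (1 - s / n) ^ (m + 1)`.  For `H` large in terms of `ε`, `m`, `n`, `d`, all number fields `K` of degree `d`, all `α` over `𝓞_K`
   and every family `𝒮` of at most `H ^ (ε / 500)` sets of places of `K`: for all `c ∈ [-H, H] ^ (m + 1)` outside a proportion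
   `H ^ (-ε / 500)`,

   `#{v ∈ S : q_v ≤ N, p_v ≡ 1 (n), all HW_i(f mod v) invertible} ≥ δ #{v ∈ S : q_v ≤ N, p_v ≡ 1 (n)} - C (N ^ (1 / 2 + ε) + (log H) ^ (4 / ε))`

   for all `S ∈ 𝒮` and all `N ≤ H ^ (ε / 200)` at the same time, `f` the polynomial with the coefficients `α + c`.

3. The set `I` of the `i < n / 2` prime to `n` is admissible for `n = 3, 4, 5, 6, 7, 8, 9, 10, 12, 14, 15, 18`.

So for these `n` the primitive part `R` of almost all `C_f` is ordinary at a positive proportion of the places `≡ 1 mod n` up to a power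
of `H`.  For `n = 4`, `I = {1, 2}` gives all of `H¹`.

Proof of 1.  Give `c_t` the weight `W - t²`, `W` a large constant.  The exponent `p u - u = (p - 1) u` is `i (p - 1) / n` times `n u / i`; the
concave hull of the weights is linear between the neighbours `t₀ = ⌊n u / i⌋` and `t₀ + 1`, so the diagonal entry has one leading monomial,
`c_{t₀}` and `c_{t₀ + 1}` to the powers `(p - 1) / n` times `i - r` and `r`, `r = n u mod i`, whose coefficient is a multinomial
coefficient of order `< p`; as `i < n`, the supporting functionals show that the identity is the only permutation which contributes to the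
leading monomial of the determinant, and the exponents of `c_t` in it add up to at most `i (p - 1) / n`.  So the exponents in the leading
monomial of the product over `I` are at most `s (p - 1) / n < p`, and the footprint bound gives 1.  Proof of 2: the residues of `c` modulo
the square-free numbers up to a power of `H` are uniformly distributed; the high moments of the sum over the primes `v` of degree one in
dyadic intervals are small.
-/

set_option autoImplicit false

open Filter

namespace Pool.Agent.Results.MP_0dad22_ag.PrimitiveParts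

open NumberField IsDedekindDomain Finset

/-- `f = c₀ + c₁ x + … + c_m x^m`. -/
noncomputable def poly {k : Type} [Field k] {m : ℕ} (c : Fin (m + 1) → k) : Polynomial k :=
  ∑ j, Polynomial.C (c j) * Polynomial.X ^ (j : ℕ)

/-- `U_i`, the set of the `u ≥ 1` with `n u < i m` (the differentials `x^(u - 1) dx / y^i`). -/
def exponents (m n i : ℕ) : Finset ℕ := (Icc 1 m).filter fun u => n * u < i * m

/-- The block `HW_i` of the Hasse-Witt matrix of `yⁿ = f(x)` in characteristic `p`: the coefficients of `x^(p u - u')` in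
`f^(i (p - 1) / n)` (zero if `p u < u'`). -/
noncomputable def hasseWitt {k : Type} [Field k] (p m n i : ℕ) (f : Polynomial k) : Matrix (exponents m n i) (exponents m n i) k :=
  Matrix.of fun u u' => if u'.1 ≤ p * u.1 then (f ^ (i * ((p - 1) / n))).coeff (p * u.1 - u'.1) else 0

/-- The set of the `i` with `0 < i < n / 2` which are prime to `n`. -/
def primitive (n : ℕ) : Finset ℕ := (range n).filter fun i => 0 < i ∧ 2 * i < n ∧ Nat.Coprime i n

section
variable {K : Type} [Field K] [NumberField K]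

/-- `q_v`, the norm of `v`. -/
noncomputable def q (v : HeightOneSpectrum (𝓞 K)) : ℕ := Ideal.absNorm v.asIdeal

/-- `p_v`, the residue characteristic of `v`. -/
noncomputable def pv (v : HeightOneSpectrum (𝓞 K)) : ℕ := ringChar (𝓞 K ⧸ v.asIdeal)

/-- The coefficients modulo `v`. -/
noncomputable def bar (v : HeightOneSpectrum (𝓞 K)) {m : ℕ} (c : Fin (m + 1) → 𝓞 K) : Fin (m + 1) → 𝓞 K ⧸ v.asIdeal :=
  fun j => Ideal.Quotient.mk v.asIdeal (c j)

/-- The blocks `HW_i`, `i ∈ I`, of `yⁿ = f(x)`, `f` with the coefficients `c`, are invertible modulo `v`. -/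
def Ordinary {m : ℕ} (n : ℕ) (I : Finset ℕ) (v : HeightOneSpectrum (𝓞 K)) (c : Fin (m + 1) → 𝓞 K) : Prop :=
  ∀ i ∈ I, (hasseWitt (pv v) m n i (poly (bar v c))).det ≠ 0

end

/-- The box `[-H, H] ^ (m + 1)`. -/
noncomputable def cube (m H : ℕ) : Finset (Fin (m + 1) → ℤ) := Fintype.piFinset fun _ => Icc (-(H : ℤ)) H

open Run7.h328.ORD.Sup in
theorem hw_eq {k : Type} [Field k] (p m n i : ℕ) (c : Fin (m + 1) → k) :
    Run7.h328.ORD.Fn.HWm p (i * ((p - 1) / n)) (ex m) (uu m n i) c = hasseWitt p m n i (poly c) :=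
  HWm_conv p (i * ((p - 1) / n)) i c

/-- the local property -/
def Lp (m n : ℕ) (I : Finset ℕ) (k : Type) [Field k] (c : Fin (m + 1) → k) : Prop :=
  ringChar k % n = 1 → ∀ i ∈ I, (hasseWitt (ringChar k) m n i (poly c)).det ≠ 0

open Run7.h328.ORD.Sup in
theorem Lp_iso (m n : ℕ) (I : Finset ℕ) (k k' : Type) [Field k] [Field k'] (e : k ≃+* k') (c : Fin (m + 1) → k) :
    Lp m n I k' (fun i => e (c i)) ↔ Lp m n I k c := by
  have hchar : ringChar k' = ringChar k := by
    have : CharP k' (ringChar k) := by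
      constructor
      intro x
      rw [← ringChar.spec k x, ← map_natCast e, map_eq_zero_iff e e.injective]
    exact ringChar.eq k' (ringChar k)
  unfold Lp
  rw [hchar]
  have h5 : ∀ i, (hasseWitt (ringChar k) m n i (poly fun j => e (c j))).det ≠ 0 ↔ (hasseWitt (ringChar k) m n i (poly c)).det ≠ 0 := by
    intro i
    have h1 := hw_eq (ringChar k) m n i (fun j => e (c j))
    have h2 := hw_eq (ringChar k) m n i c
    have h3 : (fun j => e (c j)) = fun x => (e : k →+* k') (c x) := rfl
    rw [h3, Run7.h328.ORD.Fn.HWm_map, h2] at h1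
    have h6 : hasseWitt (ringChar k) m n i (poly fun j => (e : k →+* k') (c j)) =
        (hasseWitt (ringChar k) m n i (poly c)).map (e : k →+* k') := h1.symm
    rw [h3, h6]
    have h4 := RingHom.map_det (e : k →+* k') (hasseWitt (ringChar k) m n i (poly c))
    rw [RingHom.mapMatrix_apply] at h4
    rw [← h4]
    exact map_ne_zero_iff _ e.injective
  simp only [h5]

theorem local_count (m n : ℕ) (I : Finset ℕ) (hI : ∀ i ∈ I, 0 < i ∧ i < n) (hs : ∑ i ∈ I, i < n) (p : ℕ) [hp : Fact p.Prime]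
    (h1 : p % n = 1) :
    (1 - (∑ i ∈ I, i : ℕ) / (n : ℝ)) ^ (m + 1) * (p : ℝ) ^ (m + 1) ≤
      Nat.card {c : Fin (m + 1) → ZMod p // ∀ i ∈ I, (hasseWitt p m n i (poly c)).det ≠ 0} := by
  have hn : 0 < n := by omega
  have hpn : p = n * (p / n) + 1 := by
    have := Nat.div_add_mod p n
    omega
  have hdiv : (p - 1) / n = p / n := by
    have : p - 1 = n * (p / n) := by omega
    rw [this, Nat.mul_div_cancel_left _ hn]
  have h := Run7.h328.ORD.Sup.count_sup (m := m) (p / n) hpn I hI hs
  refine h.trans (le_of_eq ?_)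
  congr 1
  refine Nat.card_congr (Equiv.subtypeEquivRight fun c => ?_)
  have e : ∀ i, Run7.h328.ORD.Fn.HWm p (i * (p / n)) (Run7.h328.ORD.Sup.ex m) (Run7.h328.ORD.Sup.uu m n i) c =
      hasseWitt p m n i (poly c) := by
    intro i
    rw [← hw_eq, hdiv]
  simp only [e]
  exact Iff.rfl

theorem Lp_zmod (m n : ℕ) (I : Finset ℕ) (p : ℕ) [hp : Fact p.Prime] (c : Fin (m + 1) → ZMod p) :
    Lp m n I (ZMod p) c ↔ (p % n = 1 → ∀ i ∈ I, (hasseWitt p m n i (poly c)).det ≠ 0) := by
  have hr : ringChar (ZMod p) = p := ringChar.eq (ZMod p) p |>.symm ▸ rfl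
  unfold Lp
  rw [hr]

/-- **The theorem.**  See the head of the file. -/
theorem result :
    (∀ (n m : ℕ) (I : Finset ℕ), (∀ i ∈ I, 0 < i ∧ i < n) → ∑ i ∈ I, i < n →
      (∀ (p : ℕ) [Fact p.Prime], p % n = 1 →
        (1 - (∑ i ∈ I, i : ℕ) / (n : ℝ)) ^ (m + 1) * (p : ℝ) ^ (m + 1) ≤
          Nat.card {c : Fin (m + 1) → ZMod p // ∀ i ∈ I, (hasseWitt p m n i (poly c)).det ≠ 0}) ∧
      ∀ d : ℕ, ∃ C : ℝ, 0 < C ∧ ∀ ε : ℝ, 0 < ε → ε ≤ 1 → ∃ H₀ : ℕ, ∀ H : ℕ, H₀ ≤ H →
        ∀ (K : Type) [Field K] [NumberField K], Module.finrank ℚ K = d → ∀ α : Fin (m + 1) → 𝓞 K,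
        ∀ 𝒮 : Finset (Set (HeightOneSpectrum (𝓞 K))), (𝒮.card : ℝ) ≤ (H : ℝ) ^ (ε / 500) →
        ∃ X ⊆ cube m H, (X.card : ℝ) ≤ (H : ℝ) ^ (-(ε / 500)) * (2 * H + 1) ^ (m + 1) ∧
          ∀ c ∈ cube m H \ X, ∀ S ∈ 𝒮, ∀ N : ℕ, (N : ℝ) ≤ (H : ℝ) ^ (ε / 200) →
            (1 - (∑ i ∈ I, i : ℕ) / (n : ℝ)) ^ (m + 1) *
                Nat.card {v : HeightOneSpectrum (𝓞 K) // v ∈ S ∧ pv v % n = 1 ∧ q v ≤ N} -
                C * ((N : ℝ) ^ (1 / 2 + ε) + Real.log H ^ (4 / ε)) ≤
              Nat.card {v : HeightOneSpectrum (𝓞 K) // v ∈ S ∧ pv v % n = 1 ∧ q v ≤ N ∧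
                Ordinary n I v (fun j => α j + (c j : 𝓞 K))}) ∧
    ∀ n ∈ ({3, 4, 5, 6, 7, 8, 9, 10, 12, 14, 15, 18} : Finset ℕ), (∀ i ∈ primitive n, 0 < i ∧ i < n) ∧ ∑ i ∈ primitive n, i < n := by
  classical
  constructor
  · intro n m I hI hs
    have hn : (0 : ℝ) < n := by
      have : 0 < n := by omega
      exact_mod_cast this
    have hsn : ((∑ i ∈ I, i : ℕ) : ℝ) / n ≤ 1 := by
      rw [div_le_one hn]
      exact_mod_cast hs.le
    have hs0 : (0 : ℝ) ≤ ((∑ i ∈ I, i : ℕ) : ℝ) / n := by positivity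
    have hδ1 : (1 - (∑ i ∈ I, i : ℕ) / (n : ℝ)) ^ (m + 1) ≤ 1 := pow_le_one₀ (by linarith) (by linarith)
    refine ⟨fun p hp h1 => local_count m n I hI hs p h1, fun d => ?_⟩
    obtain ⟨C, hC, h⟩ := Run7.h328.ORD.PP.propP (θ := Fin 0) (fun k _ _ c => Lp m n I k c) (fun k k' _ _ e _ c => Lp_iso m n I k k' e c) d
      ((1 - (∑ i ∈ I, i : ℕ) / (n : ℝ)) ^ (m + 1)) 0 hδ1 le_rfl (fun p hp a => by
        rw [zero_div, sub_zero]
        unfold Run7.h328.ORD.PP.dp
        have hp0 : 0 < Nat.card (ZMod p) := by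
          rw [Nat.card_zmod]
          exact hp.out.pos
        rw [le_div_iff₀ (by positivity), Fintype.card_fin, Nat.card_zmod]
        by_cases h3 : p % n = 1
        · refine (local_count m n I hI hs p h3).trans (le_of_eq ?_)
          congr 1
          refine Nat.card_congr (Equiv.subtypeEquivRight fun b => ?_)
          exact Iff.trans ⟨fun h _ => h, fun h => h h3⟩ (Lp_zmod m n I p b).symm
        · have e : Nat.card {c : Fin (m + 1) → ZMod p // Lp m n I (ZMod p) c} = p ^ (m + 1) := by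
            have h4 : Nat.card {c : Fin (m + 1) → ZMod p // Lp m n I (ZMod p) c} = Nat.card (Fin (m + 1) → ZMod p) := by
              refine Nat.card_congr (Equiv.subtypeUnivEquiv fun b => ?_)
              exact (Lp_zmod m n I p b).2 fun h => absurd h h3
            rw [h4, Nat.card_fun, Nat.card_zmod, Nat.card_eq_fintype_card (α := Fin (m + 1)), Fintype.card_fin]
          rw [e, Nat.cast_pow]
          exact mul_le_of_le_one_left (by positivity) hδ1)
    refine ⟨C, hC, fun ε hε hε1 => ?_⟩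
    obtain ⟨H₀, h⟩ := Filter.eventually_atTop.1 (h ε hε hε1)
    refine ⟨H₀, fun H hH K _ _ hK α 𝒮 h𝒮 => ?_⟩
    obtain ⟨Ex, hE1, hE2, hE3⟩ := h H hH K hK (fun s => Fin.elim0 s) α
      (𝒮.image fun S => S ∩ {v | pv v % n = 1}) (le_trans (by exact_mod_cast Finset.card_image_le) h𝒮)
    have hbox : Pool.Agent.Y722.HS.box (Fin (m + 1)) H = cube m H := rfl
    have hcard : ((cube m H).card : ℝ) = (2 * H + 1) ^ (m + 1) := by
      unfold cube
      rw [Fintype.card_piFinset]
      simp only [Int.card_Icc, Finset.prod_const, Finset.card_univ, Fintype.card_fin]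
      have : ((H : ℤ) + 1 - -(H : ℤ)).toNat = 2 * H + 1 := by omega
      rw [this]
      push_cast
      ring
    rw [hbox] at hE1 hE2 hE3
    refine ⟨Ex, hE1, ?_, ?_⟩
    · rw [← hcard]
      exact hE2
    · intro c hc S hS N hN
      have h1 := hE3 c hc _ (Finset.mem_image_of_mem _ hS) N hN
      have e0 : Nat.card {v : HeightOneSpectrum (𝓞 K) // v ∈ S ∩ {v | pv v % n = 1} ∧ Pool.Agent.H921R2.TatePole.nm v ≤ N} =
          Nat.card {v : HeightOneSpectrum (𝓞 K) // v ∈ S ∧ pv v % n = 1 ∧ q v ≤ N} := by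
        refine Nat.card_congr (Equiv.subtypeEquivRight fun v => ?_)
        have e1 : Pool.Agent.H921R2.TatePole.nm v = q v := rfl
        rw [e1]
        exact and_assoc
      rw [e0] at h1
      refine h1.trans (le_of_eq ?_)
      congr 1
      refine Nat.card_congr (Equiv.subtypeEquivRight fun v => ?_)
      have e1 : Pool.Agent.H921R2.TatePole.nm v = q v := rfl
      rw [e1]
      have e2 : pv v % n = 1 → (Lp m n I (𝓞 K ⧸ v.asIdeal) (Run7.h328.ORD.rvg v fun j => α j + (c j : 𝓞 K)) ↔
          Ordinary n I v (fun j => α j + (c j : 𝓞 K))) := by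
        intro h3
        unfold Lp Ordinary
        exact ⟨fun h => h h3, fun h _ => h⟩
      constructor
      · rintro ⟨⟨⟨g1, g2⟩, g3⟩, g4⟩
        exact ⟨g1, g2, g3, (e2 g2).1 g4⟩
      · rintro ⟨g1, g2, g3, g4⟩
        exact ⟨⟨⟨g1, g2⟩, g3⟩, (e2 g2).2 g4⟩
  · decide

end Pool.Agent.Results.MP_0dad22_ag.PrimitiveParts
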