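import Pool.Agent.Run7.h328.ORD.DblK

/-!
# Ordinary places of tensor constructions for almost all tuples of hyperelliptic curves and double planes

Let `X_1, ..., X_r` be double covers `w² = F_j(x)`, `F_j = ∑_{e ∈ E_j} c_{j, e} x^e`, over a number field `K`, `E_j` a finite set of exponents
in `ρ_j` variables and `U_j` a finite set with `2 U_j ⊆ E_j`.  For instance

* `ρ_j = 1`, `E_j = {0, ..., 2 g + 2}`, `U_j = {1, ..., g}`: hyperelliptic curves of genus `g`;
* `ρ_j = 2`, `E_j = {e₀ + e₁ ≤ 2 m}`, `U_j = {u₀, u₁ ≥ 1, u₀ + u₁ ≤ m - 1}`: double planes with a branch curve of degree `2 m`.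

If the Hasse-Witt matrix `(coefficient of x^(p u - u') in F_j^((p - 1) / 2))_{u, u' ∈ U_j}` of the curve (surface) `X_j` is invertible at a
place `v` of good reduction, the Newton and Hodge polygons of `H¹(X_j)` (of `H²(X_j)`) agree.  If this holds for all `j` at the *same*
place `v`, the polygons agree for all cohomology groups `Hⁿ` of the product `X_1^{a_1} × ... × X_r^{a_r}`, of its quotients by finite
groups, and for all direct factors of the tensor products of the `H¹(X_j)`, `H²(X_j)`, symmetric and exterior powers and Tate twists: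
motives of arbitrary weight.  A positive proportion of ordinary places for each `X_j` does not give a common one.

1. For every prime number `p > 2` all `r` matrices are invertible for at least `p ^ (∑ |E_j|) / 2 ^ (∑ |U_j|)` of the coefficient vectors.

2. For `H` large in terms of `ε`, `E`, `U`, `d`, all number fields `K` of degree `d`, all `α` over `𝓞_K` and every family `𝒮` of at
   most `H ^ (ε / 500)` sets of places of `K`: for all integral coefficient vectors `m` in `[-H, H]` outside a proportion `H ^ (-ε / 500)`,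

   `#{v ∈ S : q_v ≤ N, v ∤ 2, all r matrices invertible mod v} ≥ 2 ^ (-∑ |U_j|) #{v ∈ S : q_v ≤ N} - C (N ^ (1 / 2 + ε) + (log H) ^ (4 / ε))`

   for all `S ∈ 𝒮` and all `N ≤ H ^ (ε / 200)` at the same time, for the tuple with the coefficients `α + m`.

Proof: the footprint bound for the determinants (leading monomials `∏ c_{j, 2 u} ^ ((p - 1) / 2)` for the weights `W - |e|²`), the
independence of the coordinates modulo `p`, and high moments of sums over the primes of degree one.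
-/

set_option autoImplicit false

open Filter

namespace Pool.Agent.Results.MP_0dad22_ag.TensorConstructions

open NumberField IsDedekindDomain Finset

/-- The polynomial `∑ c_e x ^ e` in `n` variables. -/
noncomputable def poly {k : Type} [Field k] {n : ℕ} {E : Finset (Fin n →₀ ℕ)} (c : E → k) : MvPolynomial (Fin n) k :=
  ∑ e : E, MvPolynomial.monomial e.1 (c e)

open Classical in
/-- The Hasse-Witt matrix of `w ^ 2 = F`, `F = poly c`, in characteristic `p`: for `u, u' ∈ U` the coefficient of `x ^ (p u - u')`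
in `F ^ ((p - 1) / 2)` (zero if `p u - u'` has a negative coordinate). -/
noncomputable def hasseWitt {k : Type} [Field k] (p : ℕ) {n : ℕ} {E : Finset (Fin n →₀ ℕ)} (U : Finset (Fin n →₀ ℕ)) (c : E → k) :
    Matrix U U k :=
  Matrix.of fun u u' => if u'.1 ≤ p • u.1 then MvPolynomial.coeff (p • u.1 - u'.1) (poly c ^ ((p - 1) / 2)) else 0

section
variable {K : Type} [Field K] [NumberField K]

/-- `q_v`, the norm of `v`. -/
noncomputable def q (v : HeightOneSpectrum (𝓞 K)) : ℕ := Ideal.absNorm v.asIdeal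

/-- The coefficients modulo `v`. -/
noncomputable def bar (v : HeightOneSpectrum (𝓞 K)) {n : ℕ} {E : Finset (Fin n →₀ ℕ)} (c : E → 𝓞 K) : E → 𝓞 K ⧸ v.asIdeal :=
  fun e => Ideal.Quotient.mk v.asIdeal (c e)

/-- `v` does not divide `2` and the Hasse-Witt matrix is invertible modulo `v`. -/
def Ordinary {n : ℕ} {E : Finset (Fin n →₀ ℕ)} (U : Finset (Fin n →₀ ℕ)) (v : HeightOneSpectrum (𝓞 K)) (c : E → 𝓞 K) : Prop :=
  (2 : 𝓞 K) ∉ v.asIdeal ∧ (hasseWitt (ringChar (𝓞 K ⧸ v.asIdeal)) U (bar v c)).det ≠ 0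

end

/-- The coefficient vectors of the `r`-tuples of polynomials. -/
abbrev Tuples {r : ℕ} {ρ : Fin r → ℕ} (E : (j : Fin r) → Finset (Fin (ρ j) →₀ ℕ)) (R : Type) := (Σ j : Fin r, E j) → R

/-- The integral coefficient vectors in `[-H, H]`. -/
noncomputable def cube {r : ℕ} {ρ : Fin r → ℕ} (E : (j : Fin r) → Finset (Fin (ρ j) →₀ ℕ)) (H : ℕ) : Finset (Tuples E ℤ) :=
  Fintype.piFinset fun _ => Icc (-(H : ℤ)) H

section
variable {r : ℕ} {ρ : Fin r → ℕ} (E U : (j : Fin r) → Finset (Fin (ρ j) →₀ ℕ))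

/-- the local property -/
def Lp (k : Type) [Field k] (c : Tuples E k) : Prop :=
  (2 : k) ≠ 0 ∧ ∀ j : Fin r, (hasseWitt (ringChar k) (U j) fun e : E j => c ⟨j, e⟩).det ≠ 0

theorem hw_map {k k' : Type} [Field k] [Field k'] (f : k →+* k') (p : ℕ) {n : ℕ} {E : Finset (Fin n →₀ ℕ)} (U : Finset (Fin n →₀ ℕ)) (c : E → k) :
    hasseWitt p U (fun i => f (c i)) = (hasseWitt p U c).map f := by
  classical
  ext i j
  unfold hasseWitt
  rw [Matrix.map_apply, Matrix.of_apply, Matrix.of_apply]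
  split_ifs with h
  · rw [← MvPolynomial.coeff_map, map_pow]
    congr 2
    unfold poly
    rw [map_sum]
    exact Finset.sum_congr rfl fun i _ => (MvPolynomial.map_monomial _ _ _).symm
  · rw [map_zero]

theorem Lp_iso (k k' : Type) [Field k] [Field k'] (e : k ≃+* k') (c : Tuples E k) :
    Lp E U k' (fun i => e (c i)) ↔ Lp E U k c := by
  have hchar : ringChar k' = ringChar k := by
    have : CharP k' (ringChar k) := by
      constructor
      intro x
      rw [← ringChar.spec k x, ← map_natCast e, map_eq_zero_iff e e.injective]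
    exact ringChar.eq k' (ringChar k)
  unfold Lp
  have h1 : ((2 : k') ≠ 0) ↔ ((2 : k) ≠ 0) := by
    rw [not_iff_not, ← map_ofNat e 2, map_eq_zero_iff e e.injective]
  rw [h1, hchar]
  refine and_congr_right fun _ => forall_congr' fun j => ?_
  have h3 : (fun i : E j => e (c ⟨j, i⟩)) = fun i => (e : k →+* k') (c ⟨j, i⟩) := rfl
  rw [h3, hw_map]
  have h4 := RingHom.map_det (e : k →+* k') (hasseWitt (ringChar k) (U j) fun i : E j => c ⟨j, i⟩)
  rw [RingHom.mapMatrix_apply] at h4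
  rw [← h4]
  exact map_ne_zero_iff _ e.injective

variable (hU : ∀ j, ∀ u ∈ U j, 2 • u ∈ E j)

theorem card_joint {k : Type} [Field k] [Finite k] (P : (j : Fin r) → (E j → k) → Prop) :
    Nat.card {c : Tuples E k // ∀ j, P j fun e => c ⟨j, e⟩} = ∏ j, Nat.card {c : E j → k // P j c} := by
  rw [← Nat.card_pi]
  refine Nat.card_congr ?_
  refine (Equiv.subtypeEquiv (Equiv.piCurry fun (j : Fin r) (_ : E j) => k) fun c => ?_).trans
    (Equiv.subtypePiEquivPi (p := fun {j} c => P j c))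
  exact Iff.rfl

include hU in
theorem local_count (p : ℕ) [hp : Fact p.Prime] (h2 : p ≠ 2) :
    (p : ℝ) ^ (∑ j, (E j).card) / 2 ^ (∑ j, (U j).card) ≤
      Nat.card {c : Tuples E (ZMod p) // ∀ j, (hasseWitt p (U j) fun e : E j => c ⟨j, e⟩).det ≠ 0} := by
  classical
  rw [card_joint E fun j (c : E j → ZMod p) => (hasseWitt p (U j) c).det ≠ 0, Nat.cast_prod]
  have e : (p : ℝ) ^ (∑ j, (E j).card) / 2 ^ (∑ j, (U j).card) = ∏ j, ((p : ℝ) ^ (E j).card / 2 ^ (U j).card) := by
    rw [← Finset.prod_pow_eq_pow_sum, ← Finset.prod_pow_eq_pow_sum, Finset.prod_div_distrib]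
  rw [e]
  refine Finset.prod_le_prod (fun j _ => by positivity) fun j _ => ?_
  let ex : E j → (Fin (ρ j) →₀ ℕ) := fun e => e.1
  let u : U j → (Fin (ρ j) →₀ ℕ) := fun x => x.1
  let t : U j → E j := fun x => ⟨2 • x.1, hU j x.1 x.2⟩
  have h := Run7.h328.ORD.Dbl.count_detD (p := p) h2 ex u t Subtype.val_injective Subtype.val_injective (fun j => rfl)
  rw [Fintype.card_coe, Fintype.card_coe] at h
  have e : Nat.card {c : E j → ZMod p // (hasseWitt p (U j) c).det ≠ 0} =
      ((univ : Finset (E j → ZMod p)).filter (fun r => (Run7.h328.ORD.Dbl.HWd p ex u r).det ≠ 0)).card := by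
    rw [Nat.card_eq_fintype_card, Fintype.card_subtype]
    rfl
  rw [e]
  convert h

include hU in
open Classical in
theorem dg_low (p : ℕ) (hp : p.Prime) : (1 / 2 : ℝ) ^ (∑ j, (U j).card) - 2 / p ≤ Run7.h328.ORD.dg (fun k _ c => Lp E U k c) p := by
  have := Fact.mk hp
  have hp0 : (0 : ℝ) < p := by exact_mod_cast hp.pos
  have h56 : (1 / 2 : ℝ) ^ (∑ j, (U j).card) ≤ 1 := pow_le_one₀ (by norm_num) (by norm_num)
  by_cases h2 : p = 2
  · have h1 := (Run7.h328.ORD.dg_mem (fun k _ c => Lp E U k c) p).1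
    have h3 : (2 : ℝ) / p = 1 := by
      rw [h2]
      norm_num
    linarith
  · have h1 := local_count E U hU p h2
    have hr : ringChar (ZMod p) = p := ringChar.eq (ZMod p) p |>.symm ▸ rfl
    have h3 : (1 / 2 : ℝ) ^ (∑ j, (U j).card) ≤ Run7.h328.ORD.dg (fun k _ c => Lp E U k c) p := by
      unfold Run7.h328.ORD.dg
      rw [dif_pos hp]
      unfold Pool.Agent.Y722.HS.EM
      rw [Finset.sum_boole, le_div_iff₀ (by positivity)]
      have hcard : Fintype.card (Σ j : Fin r, E j) = ∑ j, (E j).card := by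
        rw [Fintype.card_sigma]
        exact Finset.sum_congr rfl fun j _ => Fintype.card_coe _
      rw [hcard]
      have h4 : (1 / 2 : ℝ) ^ (∑ j, (U j).card) * (p : ℝ) ^ (∑ j, (E j).card) = (p : ℝ) ^ (∑ j, (E j).card) / 2 ^ (∑ j, (U j).card) := by
        rw [one_div_pow]
        ring
      rw [h4]
      refine h1.trans (le_of_eq ?_)
      rw [Nat.card_eq_fintype_card, Fintype.card_subtype]
      congr 2
      ext c
      simp only [Finset.mem_filter, Finset.mem_univ, true_and]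
      unfold Lp
      rw [hr]
      have h8 : (2 : ZMod p) ≠ 0 := by
        intro h
        have h9 : ((2 : ℕ) : ZMod p) = 0 := by exact_mod_cast h
        rw [ZMod.natCast_eq_zero_iff] at h9
        exact h2 ((Nat.prime_dvd_prime_iff_eq hp Nat.prime_two).mp h9)
      exact ⟨fun h => ⟨h8, h⟩, fun h => h.2⟩
    have h6 : (0 : ℝ) ≤ 2 / p := by positivity
    linarith

end

/-- **The theorem.**  See the head of the file. -/
theorem result (r : ℕ) (hr : 1 ≤ r) (ρ : Fin r → ℕ) (E U : (j : Fin r) → Finset (Fin (ρ j) →₀ ℕ)) (hU : ∀ j, ∀ u ∈ U j, 2 • u ∈ E j) (d : ℕ) :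
    (∀ (p : ℕ) [Fact p.Prime], p ≠ 2 →
      (p : ℝ) ^ (∑ j, (E j).card) / 2 ^ (∑ j, (U j).card) ≤
        Nat.card {c : Tuples E (ZMod p) // ∀ j, (hasseWitt p (U j) fun e : E j => c ⟨j, e⟩).det ≠ 0}) ∧
    ∃ C : ℝ, 0 < C ∧ ∀ ε : ℝ, 0 < ε → ε ≤ 1 → ∃ H₀ : ℕ, ∀ H : ℕ, H₀ ≤ H →
      ∀ (K : Type) [Field K] [NumberField K], Module.finrank ℚ K = d → ∀ α : Tuples E (𝓞 K),
      ∀ 𝒮 : Finset (Set (HeightOneSpectrum (𝓞 K))), (𝒮.card : ℝ) ≤ (H : ℝ) ^ (ε / 500) →
      ∃ X ⊆ cube E H, (X.card : ℝ) ≤ (H : ℝ) ^ (-(ε / 500)) * (2 * H + 1) ^ (∑ j, (E j).card) ∧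
        ∀ m ∈ cube E H \ X, ∀ S ∈ 𝒮, ∀ N : ℕ, (N : ℝ) ≤ (H : ℝ) ^ (ε / 200) →
          (1 / 2 : ℝ) ^ (∑ j, (U j).card) * Nat.card {v : HeightOneSpectrum (𝓞 K) // v ∈ S ∧ q v ≤ N} -
              C * ((N : ℝ) ^ (1 / 2 + ε) + Real.log H ^ (4 / ε)) ≤
            Nat.card {v : HeightOneSpectrum (𝓞 K) // v ∈ S ∧ q v ≤ N ∧
              ∀ j, Ordinary (U j) v (fun e : E j => α ⟨j, e⟩ + (m ⟨j, e⟩ : 𝓞 K))} := by
  classical
  refine ⟨fun p _ h2 => local_count E U hU p h2, ?_⟩
  obtain ⟨C, hC, h⟩ := Run7.h328.ORD.propK (fun k _ c => Lp E U k c) d ((1 / 2 : ℝ) ^ (∑ j, (U j).card)) 2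
    (pow_le_one₀ (by norm_num) (by norm_num)) (by norm_num) (fun k k' _ _ e c => Lp_iso E U k k' e c) (fun p hp => dg_low E U hU p hp)
  refine ⟨C, hC, fun ε hε hε1 => ?_⟩
  obtain ⟨H₀, h⟩ := Filter.eventually_atTop.1 (h ε hε hε1)
  refine ⟨H₀, fun H hH K _ _ hK α 𝒮 h𝒮 => ?_⟩
  obtain ⟨Ex, hE1, hE2, hE3⟩ := h H hH K hK α 𝒮 h𝒮
  have hbox : Pool.Agent.Y722.HS.box (Σ j : Fin r, E j) H = cube E H := rfl
  have hcard : ((cube E H).card : ℝ) = (2 * H + 1) ^ (∑ j, (E j).card) := by
    unfold cube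
    rw [Fintype.card_piFinset]
    simp only [Int.card_Icc, Finset.prod_const, Finset.card_univ]
    have : ((H : ℤ) + 1 - -(H : ℤ)).toNat = 2 * H + 1 := by omega
    have e : Fintype.card (Σ j : Fin r, E j) = ∑ j, (E j).card := by
      rw [Fintype.card_sigma]
      exact Finset.sum_congr rfl fun j _ => Fintype.card_coe _
    rw [this, e]
    push_cast
    ring
  rw [hbox] at hE1 hE2 hE3
  refine ⟨Ex, hE1, ?_, ?_⟩
  · rw [← hcard]
    exact hE2
  · intro m hm S hS N hN
    have h1 := hE3 m hm S hS N hN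
    refine h1.trans (le_of_eq ?_)
    congr 1
    refine Nat.card_congr (Equiv.subtypeEquivRight fun v => ?_)
    have e1 : Pool.Agent.H921R2.TatePole.nm v = q v := rfl
    have e2 : Lp E U (𝓞 K ⧸ v.asIdeal) (Run7.h328.ORD.rvg v fun i => α i + (m i : 𝓞 K)) ↔
        ∀ j, Ordinary (U j) v (fun e : E j => α ⟨j, e⟩ + (m ⟨j, e⟩ : 𝓞 K)) := by
      unfold Lp Ordinary
      have h3 : ((2 : 𝓞 K ⧸ v.asIdeal) ≠ 0) ↔ (2 : 𝓞 K) ∉ v.asIdeal := by
        rw [← Ideal.Quotient.eq_zero_iff_mem, map_ofNat]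
      rw [h3]
      constructor
      · rintro ⟨g1, g2⟩ j
        exact ⟨g1, g2 j⟩
      · intro g
        exact ⟨(g ⟨0, hr⟩).1, fun j => (g j).2⟩
    rw [e1, e2, and_assoc]

end Pool.Agent.Results.MP_0dad22_ag.TensorConstructions
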